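import Pool.Agent.X20.Tr.Pr
import Pool.Agent.X20.Tr.Rel
import Pool.Agent.X20.Tr.UpLog
import Pool.Agent.X20.Tr.Use
import Pool.Agent.Results.MP_79499b_co.AlmostAllOddDvd
import Pool.Agent.Results.MP_79499b_co.AlmostAllThreeDvd
import Pool.Agent.Results.MP_79499b_co.OrderCountOdd
import Pool.Agent.Results.MP_79499b_co.PrimeFactorsAlmostAll

/-!
# Difference sets with Singer parameters whose order is a number `⌊α k ^ c⌋`

From Mathlib: `dimH E`: the Hausdorff dimension; `⌊x⌋₊`: the integer part; `Finset.Icc 1 N`: the integers from `1` to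
`N`; `IsPrimePow`: prime power; `m.minFac`: the least prime factor; `n.primeFactorsList.length`: the number of the prime
factors of `n` with multiplicity; `𝓝 0`: the neighbourhoods of `0`. From the team's `AlmostAllOddDvd` and
`PrimeFactorsAlmostAll`: `HasSingerDifferenceSet n m`: some finite group of order `(n ^ m - 1) / (n - 1)`, abelian or not,
contains a difference set with the Singer parameters of `(n, m)`; with a first argument `nil` the group has to be nilpotent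
if `nil` holds.
-/

set_option autoImplicit false

namespace Pool.Agent.Results.MP_79499b_co.AlmostAllFloorPowers

open Finset Filter Topology
open Pool.Agent.X20.Tr
open Pool.Agent.Y854.PS (ms xs)
open Pool.Agent.Results.MP_79499b_co.AlmostAllOddDvd (HasSingerDifferenceSet)

open Classical in
/-- the number of the `k`, `1 ≤ k ≤ N`, such that `⌊α k ^ c⌋` has the property `P` -/
noncomputable def along (c α : ℝ) (P : ℕ → Prop) (N : ℕ) : ℕ :=
  ((Icc 1 N).filter (fun k : ℕ => P ⌊α * (k : ℝ) ^ c⌋₊)).card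

/-- `n` is not a prime power, and for some odd `m ≥ 3` divisible by `L` some finite group contains a difference set with
the Singer parameters of `(n, m)`; if `L` is a prime only the pairs with `n ≡ 2 (mod 4)` or `n ≡ 1`, `m ≡ 3 (mod 4)` are
considered -/
def OddOrder (L n : ℕ) : Prop :=
  2 ≤ n ∧ ¬ IsPrimePow n ∧ ∃ m : ℕ, Odd m ∧ 3 ≤ m ∧ L ∣ m ∧
    (¬ L.Prime ∨ n % 4 = 2 ∨ (n % 4 = 1 ∧ m % 4 = 3)) ∧ HasSingerDifferenceSet n m

/-- `n` is not a prime power, and for some odd `m ≥ 3` divisible by `3` some finite group contains a difference set with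
the Singer parameters of `(n, m)` (for `m = 3` a planar difference set of order `n`) -/
def ThreeOrder (n : ℕ) : Prop :=
  2 ≤ n ∧ ¬ IsPrimePow n ∧ ∃ m : ℕ, Odd m ∧ 3 ≤ m ∧ 3 ∣ m ∧ HasSingerDifferenceSet n m

/-- for some odd `m ≥ 3` with least prime factor at most `K` some finite group contains a difference set with the Singer
parameters of `(n, m)` -/
def SmallOrder (K n : ℕ) : Prop :=
  2 ≤ n ∧ ∃ m : ℕ, Odd m ∧ 3 ≤ m ∧ m.minFac ≤ K ∧ HasSingerDifferenceSet n m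

/-- `n` has exactly `k` prime factors, counted with multiplicity -/
def Factors (k n : ℕ) : Prop := n.primeFactorsList.length = k

/-- `n` has exactly `k` prime factors, and some finite group, which is nilpotent if `e m` is even, contains a difference set
with the Singer parameters of `((a n) ^ e, m)` -/
def FactorsOrder (m k a e n : ℕ) : Prop :=
  n.primeFactorsList.length = k ∧ PrimeFactorsAlmostAll.HasSingerDifferenceSet (Even (e * m)) ((a * n) ^ e) m

/-! ### lemmas -/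

lemma ratio_tend {f g : ℕ → ℝ} (hf : ∀ N, 0 ≤ f N) (hg : ∀ N, 0 ≤ g N)
    (h : ∀ ε : ℝ, 0 < ε → ∃ N₀ : ℕ, ∀ N : ℕ, N₀ ≤ N → f N ≤ ε * g N) : Tendsto (fun N => f N / g N) atTop (𝓝 0) := by
  rw [Metric.tendsto_atTop]
  intro ε hε
  obtain ⟨N₀, h1⟩ := h (ε / 2) (by positivity)
  refine ⟨N₀, fun N hN => ?_⟩
  rw [Real.dist_0_eq_abs, abs_of_nonneg (div_nonneg (hf N) (hg N))]
  rcases (hg N).eq_or_lt with h2 | h2
  · rw [← h2, div_zero]
    exact hε
  · rw [div_lt_iff₀ h2]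
    have := h1 N hN
    nlinarith

open Classical in
lemma along_eq (c α : ℝ) {P : ℕ → Prop} {B : Set ℕ} (hB : ∀ n, P n ↔ n ∈ B) (N : ℕ) :
    along c α P N = ((Icc 1 N).filter (fun n => ms α c n ∈ B)).card := by
  unfold along
  exact card_filt _ fun _ => hB _

open Classical in
lemma set_eq {P : ℕ → Prop} {B : Set ℕ} (hB : ∀ n, (2 ≤ n ∧ P n) ↔ n ∈ B) (X : ℕ) :
    {n : ℕ | 2 ≤ n ∧ n ≤ X ∧ P n}.ncard = ((Icc 1 X).filter (fun n => n ∈ B)).card := by
  rw [← Set.ncard_coe_finset]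
  congr 1
  ext n
  rw [coe_filter]
  constructor
  · rintro ⟨h1, h2, h3⟩
    exact ⟨mem_Icc.2 ⟨by omega, h2⟩, (hB n).1 ⟨h1, h3⟩⟩
  · rintro ⟨h1, h2⟩
    obtain ⟨h3, h4⟩ := (hB n).2 h2
    exact ⟨h3, (mem_Icc.1 h1).2, h4⟩

open Classical in
/-- a set of `o(X / log X)` integers is small compared with the primes -/
lemma rel_primes {P : ℕ → Prop} {B : Set ℕ} (hB : ∀ n, (2 ≤ n ∧ P n) ↔ n ∈ B)
    (h : Tendsto (fun X : ℕ => ({n : ℕ | 2 ≤ n ∧ n ≤ X ∧ P n}.ncard : ℝ) * Real.log X / X) atTop (𝓝 0)) :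
    ∀ ε : ℝ, 0 < ε → ∃ X₀ : ℕ, ∀ X : ℕ, X₀ ≤ X →
      (((Icc 1 X).filter (fun m => m ∈ B)).card : ℝ) ≤
        ε * (((Icc 1 X).filter (fun m => m ∈ Primes)).card : ℝ) := by
  intro ε hε
  obtain ⟨X₁, h1⟩ := pi_bounds
  obtain ⟨X₂, h2⟩ := ((h.eventually (gt_mem_nhds (show (0 : ℝ) < ε / 2 by positivity))).and
    (eventually_ge_atTop 3)).exists_forall_of_atTop
  refine ⟨max X₁ X₂, fun X hX => ?_⟩
  have h3 := (h1 X ((le_max_left _ _).trans hX)).1
  obtain ⟨h4, h5⟩ := h2 X ((le_max_right _ _).trans hX)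
  have hX3 : (3 : ℝ) ≤ X := by exact_mod_cast h5
  have hL : 0 < Real.log X := Real.log_pos (by linarith)
  have hX0 : (0 : ℝ) < X := by linarith
  rw [card_primes, ← set_eq hB]
  rw [div_lt_iff₀ hX0] at h4
  rw [div_le_iff₀ hL] at h3
  have h6 : ({n : ℕ | 2 ≤ n ∧ n ≤ X ∧ P n}.ncard : ℝ) * Real.log X ≤ ε * Nat.primeCounting X * Real.log X := by
    have h7 := mul_le_mul_of_nonneg_left h3 hε.le
    linarith
  exact le_of_mul_le_mul_right h6 hL

lemma omega_two_pow {k p : ℕ} (hk : 2 ≤ k) (hp : p.Prime) : (2 ^ (k - 1) * p).primeFactorsList.length = k := by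
  rw [← ArithmeticFunction.cardFactors_apply, ArithmeticFunction.cardFactors_mul (by positivity) hp.ne_zero,
    ArithmeticFunction.cardFactors_apply_prime_pow Nat.prime_two, ArithmeticFunction.cardFactors_apply_prime hp]
  omega

open Classical in
/-- there are many integers with exactly `k` prime factors -/
lemma factors_thick {k : ℕ} (hk : 2 ≤ k) {Q : Set ℕ} (hQ : ∀ n, Factors k n ↔ n ∈ Q) :
    ∀ δ : ℝ, 0 < δ → ∃ X₀ : ℕ, ∀ X : ℕ, X₀ ≤ X →
    (X : ℝ) ^ (1 - δ) ≤ (((Icc 1 X).filter (fun m => m ∈ Q)).card : ℝ) := by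
  intro δ₀ hδ₀
  obtain ⟨δ, hδ⟩ : ∃ δ : ℝ, δ = min δ₀ 1 := ⟨_, rfl⟩
  have hδ1 : 0 < δ := by rw [hδ]; exact lt_min hδ₀ one_pos
  have hδ2 : δ ≤ 1 := by rw [hδ]; exact min_le_right _ _
  have hδ3 : δ ≤ δ₀ := by rw [hδ]; exact min_le_left _ _
  obtain ⟨X₁, h1⟩ := pi_thick (δ / 2) (by positivity)
  obtain ⟨T, hT⟩ : ∃ T : ℕ, T = 2 ^ (k - 1) := ⟨_, rfl⟩
  have hT0 : 0 < T := by rw [hT]; positivity
  have hTr : (0 : ℝ) < T := by exact_mod_cast hT0
  obtain ⟨X₂, h2⟩ := (((tend_pow (δ / 2) (by positivity)).eventually_ge_atTop (2 * (T : ℝ))).and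
    (eventually_ge_atTop (max (T * X₁) (2 * T)))).exists_forall_of_atTop
  refine ⟨X₂, fun X hX => ?_⟩
  obtain ⟨h3, h4⟩ := h2 X hX
  have hXT : T * X₁ ≤ X := (le_max_left _ _).trans h4
  have hXT2 : 2 * T ≤ X := (le_max_right _ _).trans h4
  obtain ⟨Y, hY⟩ : ∃ Y : ℕ, Y = X / T := ⟨_, rfl⟩
  have hY1 : X₁ ≤ Y := by
    rw [hY, Nat.le_div_iff_mul_le hT0]
    rw [mul_comm]
    exact hXT
  have h5 := h1 Y hY1
  have hX0 : (0 : ℝ) < X := by
    have : 0 < X := by omega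
    exact_mod_cast this
  have hX1 : (1 : ℝ) ≤ X := by
    have : 1 ≤ X := by omega
    exact_mod_cast this
  -- `Y ≥ X / (2 T)`
  have hYX : (X : ℝ) / (2 * T) ≤ Y := by
    rw [div_le_iff₀ (by positivity)]
    have h6 : X < (Y + 1) * T := by
      rw [hY]
      rw [mul_comm]
      exact Nat.lt_mul_div_succ X hT0
    have h7 : 1 ≤ Y := by
      rw [hY, Nat.le_div_iff_mul_le hT0]
      omega
    have h8 : X ≤ Y * (2 * T) := by nlinarith
    exact_mod_cast h8
  have h6 : (X : ℝ) ^ (1 - δ) ≤ (Y : ℝ) ^ (1 - δ / 2) := by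
    have e1 : (X : ℝ) / (2 * T) ≥ (X : ℝ) ^ (1 - δ / 2) := by
      rw [ge_iff_le, le_div_iff₀ (by positivity)]
      have e2 : (X : ℝ) ^ (1 - δ / 2) * (X : ℝ) ^ (δ / 2) = X := by
        rw [← Real.rpow_add hX0]
        simp
      have e3 : (0 : ℝ) ≤ (X : ℝ) ^ (1 - δ / 2) := by positivity
      calc (X : ℝ) ^ (1 - δ / 2) * (2 * T) ≤ (X : ℝ) ^ (1 - δ / 2) * (X : ℝ) ^ (δ / 2) :=
            mul_le_mul_of_nonneg_left h3 e3
        _ = X := e2
    have e4 : (X : ℝ) ^ (1 - δ / 2) ≤ Y := e1.le.trans hYX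
    have e5 : ((X : ℝ) ^ (1 - δ / 2)) ^ (1 - δ / 2) ≤ (Y : ℝ) ^ (1 - δ / 2) :=
      Real.rpow_le_rpow (by positivity) e4 (by linarith)
    refine le_trans ?_ e5
    rw [← Real.rpow_mul hX0.le]
    exact Real.rpow_le_rpow_of_exponent_le hX1 (by nlinarith)
  have h7 : (X : ℝ) ^ (1 - δ₀) ≤ (X : ℝ) ^ (1 - δ) := Real.rpow_le_rpow_of_exponent_le hX1 (by linarith)
  refine h7.trans (h6.trans (h5.trans ?_))
  have h8 : Nat.primeCounting Y ≤ ((Icc 1 X).filter (fun m => m ∈ Q)).card := by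
    rw [← card_primes]
    apply card_le_card_of_injOn (fun p => T * p)
    · intro p hp
      rw [mem_coe, mem_filter, mem_Icc] at hp
      rw [mem_coe, mem_filter, mem_Icc]
      refine ⟨⟨Nat.mul_pos hT0 (by omega), ?_⟩, ?_⟩
      · calc T * p ≤ T * Y := Nat.mul_le_mul_left _ hp.1.2
          _ ≤ X := by rw [hY]; exact Nat.mul_div_le X T
      · refine (hQ _).1 ?_
        show (T * p).primeFactorsList.length = k
        rw [hT]
        exact omega_two_pow hk hp.2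
    · intro p _ q _ h
      exact Nat.eq_of_mul_eq_mul_left hT0 h
  exact_mod_cast h8

open Classical in
/-- the relative density zero -/
lemma rel_factors {k : ℕ} (hk : 2 ≤ k) {P : ℕ → Prop} {B Q : Set ℕ}
    (hB : ∀ n : ℕ, (n.primeFactorsList.length = k ∧ P n) ↔ n ∈ B) (hQ : ∀ n, Factors k n ↔ n ∈ Q)
    (h : Tendsto (fun X : ℕ => ({N : ℕ | N ≤ X ∧ N.primeFactorsList.length = k ∧ P N}.ncard : ℝ) /
      ({N : ℕ | N ≤ X ∧ N.primeFactorsList.length = k}.ncard : ℝ)) atTop (𝓝 0)) :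
    ∀ ε : ℝ, 0 < ε → ∃ X₀ : ℕ, ∀ X : ℕ, X₀ ≤ X →
      (((Icc 1 X).filter (fun m => m ∈ B)).card : ℝ) ≤
        ε * (((Icc 1 X).filter (fun m => m ∈ Q)).card : ℝ) := by
  intro ε hε
  have hz : ∀ N : ℕ, N.primeFactorsList.length = k → 1 ≤ N := by
    intro N hN
    by_contra h0
    have : N = 0 := by omega
    rw [this, Nat.primeFactorsList_zero, List.length_nil] at hN
    omega
  have e1 : ∀ X : ℕ, {N : ℕ | N ≤ X ∧ N.primeFactorsList.length = k ∧ P N}.ncard =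
      ((Icc 1 X).filter (fun m => m ∈ B)).card := by
    intro X
    rw [← Set.ncard_coe_finset]
    congr 1
    ext n
    rw [coe_filter]
    exact ⟨fun h => ⟨mem_Icc.2 ⟨hz n h.2.1, h.1⟩, (hB n).1 h.2⟩, fun h => ⟨(mem_Icc.1 h.1).2, (hB n).2 h.2⟩⟩
  have e2 : ∀ X : ℕ, {N : ℕ | N ≤ X ∧ N.primeFactorsList.length = k}.ncard =
      ((Icc 1 X).filter (fun m => m ∈ Q)).card := by
    intro X
    rw [← Set.ncard_coe_finset]
    congr 1
    ext n
    rw [coe_filter]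
    exact ⟨fun h => ⟨mem_Icc.2 ⟨hz n h.2, h.1⟩, (hQ n).1 h.2⟩, fun h => ⟨(mem_Icc.1 h.1).2, (hQ n).2 h.2⟩⟩
  obtain ⟨X₁, h1⟩ := (h.eventually (gt_mem_nhds hε)).exists_forall_of_atTop
  refine ⟨X₁, fun X hX => ?_⟩
  have h2 := h1 X hX
  rw [e1, e2] at h2
  rcases Nat.eq_zero_or_pos ((Icc 1 X).filter (fun m => m ∈ Q)).card with h3 | h3
  · have h4 : ((Icc 1 X).filter (fun m => m ∈ B)).card ≤ ((Icc 1 X).filter (fun m => m ∈ Q)).card := by
      apply card_le_card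
      intro m hm
      rw [mem_filter] at hm ⊢
      exact ⟨hm.1, (hQ m).1 ((hB m).2 hm.2).1⟩
    rw [h3] at h4 ⊢
    rw [Nat.le_zero.1 h4]
    simp
  · have h3' : (0 : ℝ) < (((Icc 1 X).filter (fun m => m ∈ Q)).card : ℝ) := by exact_mod_cast h3
    rw [div_lt_iff₀ h3'] at h2
    exact h2.le

/-- For every real `c > 1` there are `κ > 0` and a set `E` of real numbers of Hausdorff dimension at most `1 - κ`
such that for every real `α > 0` outside `E`, writing `m(k) = ⌊α k ^ c⌋`: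

* at least `δ N / log N` of the `m(k)`, `k ≤ N`, are primes, for some `δ > 0` and all large `N` (and all primes are orders of
  difference sets with Singer parameters, by Singer's theorem);
* for every odd `L ≥ 3` the number of the `k ≤ N` such that `OddOrder L (m(k))` is `o` of the number of those such that
  `m(k)` is a prime, and the same is true for `ThreeOrder`;
* for all `K` and `ε > 0` the number of the `k ≤ N` such that `SmallOrder K (m(k))` is at most `C N (log N) ^ (ε - 1)`;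
* for all `m ≥ 3`, `r ≥ 2`, `a ≥ 1` and `e ≥ 1`: for 100% of the `k` for which `m(k)` has exactly `r` prime factors no finite
  group, nilpotent if `e m` is even, contains a difference set with the Singer parameters of `((a m(k)) ^ e, m)`. -/
theorem result (c : ℝ) (hc : 1 < c) : ∃ κ : ℝ, 0 < κ ∧ κ < 1 ∧ ∃ E : Set ℝ, dimH E ≤ ENNReal.ofReal (1 - κ) ∧
    ∀ α : ℝ, 0 < α → α ∉ E →
      (∃ δ : ℝ, 0 < δ ∧ ∃ N₀ : ℕ, ∀ N : ℕ, N₀ ≤ N → δ * N / Real.log N ≤ (along c α Nat.Prime N : ℝ)) ∧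
      (∀ L : ℕ, Odd L → 3 ≤ L →
        Tendsto (fun N : ℕ => (along c α (OddOrder L) N : ℝ) / along c α Nat.Prime N) atTop (𝓝 0)) ∧
      Tendsto (fun N : ℕ => (along c α ThreeOrder N : ℝ) / along c α Nat.Prime N) atTop (𝓝 0) ∧
      (∀ (K : ℕ) (ε : ℝ), 0 < ε → ∃ C : ℝ, ∃ N₀ : ℕ, ∀ N : ℕ, N₀ ≤ N →
        (along c α (SmallOrder K) N : ℝ) ≤ C * N * (Real.log N) ^ (ε - 1)) ∧
      ∀ m r a e : ℕ, 3 ≤ m → 2 ≤ r → 1 ≤ a → 1 ≤ e →
        Tendsto (fun N : ℕ => (along c α (FactorsOrder m r a e) N : ℝ) / along c α (Factors r) N) atTop (𝓝 0) := by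
  classical
  obtain ⟨κ, hκ0, hκ1, H⟩ := use c hc
  refine ⟨κ, hκ0, hκ1, ?_⟩
  obtain ⟨E, hE, hh⟩ := H (fun _ _ => Primes) (ℕ ⊕ (ℕ ⊕ (ℕ ⊕ (ℕ × ℕ × ℕ × ℕ)))) (fun i => match i with
    | Sum.inl L => {n | OddOrder L n}
    | Sum.inr (Sum.inl K) => {n | SmallOrder K n}
    | Sum.inr (Sum.inr (Sum.inl r)) => if r = 0 then {n | ThreeOrder n} else {n | Factors r n}
    | Sum.inr (Sum.inr (Sum.inr (m, r, a, e))) => {n | FactorsOrder m r a e n})
  refine ⟨E, hE, fun α hα hαE => ?_⟩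
  obtain ⟨_, h2, h3⟩ := hh α hα hαE
  have hP : Cmp c α κ (ind Primes) := h2 0 0
  have thickP : ∀ δ : ℝ, 0 < δ → ∃ X₀ : ℕ, ∀ X : ℕ, X₀ ≤ X →
      (X : ℝ) ^ (1 - δ) ≤ (((Icc 1 X).filter (fun m => m ∈ Primes)).card : ℝ) := by
    intro δ hδ
    obtain ⟨X₀, h⟩ := pi_thick δ hδ
    exact ⟨X₀, fun X hX => by rw [card_primes]; exact h X hX⟩
  have hpr : ∀ N, along c α Nat.Prime N = ((Icc 1 N).filter (fun n => ms α c n ∈ Primes)).card :=
    fun N => along_eq c α (fun _ => Iff.rfl) N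
  have key : ∀ (G Q : ℕ → Prop) (BG BQ : Set ℕ), (∀ n, G n ↔ n ∈ BG) → (∀ n, Q n ↔ n ∈ BQ) →
      Cmp c α κ (ind BG) → Cmp c α κ (ind BQ) →
      (∀ ε : ℝ, 0 < ε → ∃ X₀ : ℕ, ∀ X : ℕ, X₀ ≤ X →
        (((Icc 1 X).filter (fun m => m ∈ BG)).card : ℝ) ≤ ε * (((Icc 1 X).filter (fun m => m ∈ BQ)).card : ℝ)) →
      (∀ δ : ℝ, 0 < δ → ∃ X₀ : ℕ, ∀ X : ℕ, X₀ ≤ X →
        (X : ℝ) ^ (1 - δ) ≤ (((Icc 1 X).filter (fun m => m ∈ BQ)).card : ℝ)) →
      Tendsto (fun N : ℕ => (along c α G N : ℝ) / along c α Q N) atTop (𝓝 0) := by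
    intro G Q BG BQ hBG hBQ hG hQ hrel hth
    refine ratio_tend (fun N => Nat.cast_nonneg _) (fun N => Nat.cast_nonneg _) fun ε hε => ?_
    obtain ⟨N₀, h4⟩ := rel hc hα hκ0 hκ1.le hG hQ hrel hth ε hε
    exact ⟨N₀, fun N hN => by rw [along_eq c α hBG, along_eq c α hBQ]; exact h4 N hN⟩
  refine ⟨?_, fun L hL hL3 => ?_, ?_, fun K ε hε => ?_, fun m r a e hm hr ha he => ?_⟩
  · obtain ⟨δ, hδ, N₀, h4⟩ := thin_log hc hα hκ0 hP (by
      obtain ⟨X₀, h⟩ := pi_bounds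
      exact ⟨1 / 2, by norm_num, X₀, fun X hX => by rw [card_primes]; exact (h X hX).1⟩)
    exact ⟨δ, hδ, N₀, fun N hN => by rw [hpr]; exact h4 N hN⟩
  · refine key (OddOrder L) Nat.Prime {n | OddOrder L n} Primes (fun _ => Iff.rfl) (fun _ => Iff.rfl)
      (h3 (Sum.inl L)) hP ?_ thickP
    exact rel_primes (fun _ => Iff.rfl) (AlmostAllOddDvd.result L hL hL3)
  · refine key ThreeOrder Nat.Prime {n | ThreeOrder n} Primes (fun _ => Iff.rfl) (fun _ => Iff.rfl)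
      (h3 (Sum.inr (Sum.inr (Sum.inl 0)))) hP ?_ thickP
    exact rel_primes (fun _ => Iff.rfl) AlmostAllThreeDvd.result
  · obtain ⟨C, _, hC⟩ := OrderCountOdd.result K (min ε (1 / 2)) (by positivity)
    have h4 : Cmp c α κ (ind {n | SmallOrder K n}) := h3 (Sum.inr (Sum.inl K))
    have hθ : 0 < 1 - min ε (1 / 2) := by
      have := min_le_right ε (1 / 2 : ℝ)
      linarith
    obtain ⟨C', hC', N₀, h5⟩ := up_log hc hα hκ0 hθ h4 ⟨C, 3, fun X hX => by
      have h6 := hC X hX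
      have e1 : (cnt {n | SmallOrder K n} X : ℝ) = ({n : ℕ | 2 ≤ n ∧ n ≤ X ∧
          ∃ m : ℕ, Odd m ∧ 3 ≤ m ∧ m.minFac ≤ K ∧ OrderCountOdd.HasSingerDifferenceSet n m}.ncard : ℝ) := by
        unfold cnt
        exact congrArg Nat.cast ((card_filt _ fun _ => Iff.rfl).trans (set_eq (P := fun n => ∃ m : ℕ, Odd m ∧ 3 ≤ m ∧
          m.minFac ≤ K ∧ OrderCountOdd.HasSingerDifferenceSet n m) (B := {n | SmallOrder K n})
          (fun _ => Iff.rfl) X).symm)
      rw [e1]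
      refine h6.trans (le_of_eq ?_)
      rw [neg_sub]⟩
    refine ⟨max C' 0, max N₀ 3, fun N hN => ?_⟩
    have h6 := h5 N ((le_max_left _ _).trans hN)
    have hN3 : (3 : ℝ) ≤ N := by exact_mod_cast (le_max_right _ _).trans hN
    have hlog : 1 ≤ Real.log N := by
      rw [Real.le_log_iff_exp_le (by linarith)]
      have := Real.exp_one_lt_d9
      linarith
    have e2 : (along c α (SmallOrder K) N : ℝ) = (hit c α {n | SmallOrder K n} N : ℝ) := by
      unfold along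
      exact congrArg Nat.cast (hit_form c α (SmallOrder K) N)
    rw [e2]
    refine h6.trans ?_
    have h7 : (Real.log N) ^ (-(1 - min ε (1 / 2))) ≤ (Real.log N) ^ (ε - 1) := by
      apply Real.rpow_le_rpow_of_exponent_le hlog
      have := min_le_left ε (1 / 2 : ℝ)
      linarith
    have h8 : (0 : ℝ) ≤ (Real.log N) ^ (-(1 - min ε (1 / 2))) := Real.rpow_nonneg (by linarith) _
    have hN0 : (0 : ℝ) ≤ N := by linarith
    calc C' * N * (Real.log N) ^ (-(1 - min ε (1 / 2))) ≤ max C' 0 * N * (Real.log N) ^ (-(1 - min ε (1 / 2))) :=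
          mul_le_mul_of_nonneg_right (mul_le_mul_of_nonneg_right (le_max_left _ _) hN0) h8
      _ ≤ max C' 0 * N * (Real.log N) ^ (ε - 1) :=
          mul_le_mul_of_nonneg_left h7 (mul_nonneg (le_max_right _ _) hN0)
  · have hr0 : r ≠ 0 := by omega
    have hQ : Cmp c α κ (ind {n | Factors r n}) := by
      have := h3 (Sum.inr (Sum.inr (Sum.inl r)))
      simpa only [if_neg hr0] using this
    refine key (FactorsOrder m r a e) (Factors r) {n | FactorsOrder m r a e n} {n | Factors r n} (fun _ => Iff.rfl)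
      (fun _ => Iff.rfl) (h3 (Sum.inr (Sum.inr (Sum.inr (m, r, a, e))))) hQ ?_ (factors_thick hr fun _ => Iff.rfl)
    exact rel_factors hr (fun _ => Iff.rfl) (fun _ => Iff.rfl) (PrimeFactorsAlmostAll.result m r a e hm hr ha he)

end Pool.Agent.Results.MP_79499b_co.AlmostAllFloorPowers
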