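import Mathlib
import Pool.Agent.X18.SgVert

set_option autoImplicit false

namespace Pool.Agent.Results.MP_79499b_co.CoprimeDimensions

/-- Some finite group `G` (not assumed abelian) of order `(n ^ m - 1) / (n - 1)` contains a
difference set `D` with the Singer parameters:
`k = (n ^ (m - 1) - 1) / (n - 1)`, `lambda = (n ^ (m - 2) - 1) / (n - 1)`. -/
def HasSingerDifferenceSet (n m : ℕ) : Prop :=
  ∃ (G : Type) (_ : Group G) (_ : Fintype G) (_ : DecidableEq G) (D : Finset G),
    Fintype.card G * (n - 1) = n ^ m - 1 ∧ D.card * (n - 1) = n ^ (m - 1) - 1 ∧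
    ∀ g : G, g ≠ 1 →
      ((D ×ˢ D).filter (fun p : G × G => p.1 * p.2⁻¹ = g)).card * (n - 1) = n ^ (m - 2) - 1

/-- Let `p` and `p'` be two different primes with odd exponents in the factorisation of `n`, and let
`N ≥ 1`, where `3` does not divide `N` or `p` and `p'` are different from `3`. There is an infinite
sequence of odd numbers `d i ≥ 3`, coprime to `N`, such that no finite group contains a difference
set with the Singer parameters of `(n, m)` if `m ≥ 3` is odd and divisible by some `d i`, and any two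
of the numbers `d i` are coprime if `p` and `p'` are different from `3`, and have a power of `3` as
their greatest common divisor in all cases. -/
theorem result (n p p' N : ℕ) (hp : p.Prime) (hp' : p'.Prime) (hne : p ≠ p')
    (h1 : Odd (n.factorization p)) (h2 : Odd (n.factorization p')) (hN : 1 ≤ N)
    (h3 : ¬ 3 ∣ N ∨ (p ≠ 3 ∧ p' ≠ 3)) :
    ∃ d : ℕ → ℕ, (∀ i, Odd (d i) ∧ 3 ≤ d i ∧ Nat.Coprime (d i) N ∧
      ∀ m : ℕ, Odd m → 3 ≤ m → d i ∣ m → ¬ HasSingerDifferenceSet n m) ∧
      ∀ i j, i < j → ∃ k, Nat.gcd (d i) (d j) = 3 ^ k ∧ (p ≠ 3 → p' ≠ 3 → k = 0) :=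
  Pool.Agent.X18.SgVert.many hp hp' hne h1 h2 (by omega) h3

end Pool.Agent.Results.MP_79499b_co.CoprimeDimensions
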