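import Mathlib
import Pool.Agent.X18.SgOdd

set_option autoImplicit false

namespace Pool.Agent.Results.MP_79499b_co.FixedCofactorOddDimensions

open Filter Topology

/-- Some finite group `G` (not assumed abelian) of order `(n ^ m - 1) / (n - 1)` contains a
difference set `D` with the Singer parameters:
`k = (n ^ (m - 1) - 1) / (n - 1)`, `lambda = (n ^ (m - 2) - 1) / (n - 1)`. -/
def HasSingerDifferenceSet (n m : ℕ) : Prop :=
  ∃ (G : Type) (_ : Group G) (_ : Fintype G) (_ : DecidableEq G) (D : Finset G),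
    Fintype.card G * (n - 1) = n ^ m - 1 ∧ D.card * (n - 1) = n ^ (m - 1) - 1 ∧
    ∀ g : G, g ≠ 1 →
      ((D ×ˢ D).filter (fun p : G × G => p.1 * p.2⁻¹ = g)).card * (n - 1) = n ^ (m - 2) - 1

/-- Let `A ≥ 2` and `F ≥ 1` where `F` is odd or `A` is not a perfect square, and let `K ≥ 1`. For
almost all primes `q` (all but `o(π(N))` of the primes `q ≤ N`) there is no odd `m ≥ 3` with least
prime factor at most `K` such that some finite group contains a difference set with the Singer
parameters of `(A * q ^ F, m)`. -/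
theorem result (K A F : ℕ) (hA : 2 ≤ A) (hF : 1 ≤ F) (h : Odd F ∨ ¬ IsSquare A) :
    Tendsto (fun N : ℕ =>
      ({q : ℕ | q ≤ N ∧ q.Prime ∧ ∃ m : ℕ, Odd m ∧ 3 ≤ m ∧ m.minFac ≤ K ∧
        HasSingerDifferenceSet (A * q ^ F) m}.ncard : ℝ) /
        (Nat.primeCounting N : ℝ)) atTop (𝓝 0) :=
  Pool.Agent.X18.SgOdd.odd_minFac hA hF h

end Pool.Agent.Results.MP_79499b_co.FixedCofactorOddDimensions
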