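import Pool.Agent.Y346.SG.OCM
import Pool.Agent.X283.DA.LogAny

/-!
# Orders of difference sets with Singer parameters: no orders near fast sequences and among denominators

`NoOrder K n`: no finite group contains a difference set with the Singer
parameters of `(n, m)`, for any odd `m ≥ 3` with least prime factor at most `K` (for instance `m = 3`,
planar difference sets of order `n`).

* For almost all `t > 1` and all `K`: `NoOrder K` holds for ALL integers within `κ_n ^ θ` of `t ^ κ_n`, `n ≥ n₀`, if
  `κ_n → ∞` and `∑ κ_n ^ (-u) < ∞` for some `u < 1 - θ`; for example within `n ^ (1 - ε)` of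
  `t ^ (n ^ 2)`. The same for `α exp(κ_n)` and almost all `α > 0`.
* For almost all `x ∈ ℝ ^ d` and all `K`: `NoOrder K` holds for ALL large `q` such that `q x_i` is within
  `q ^ (-θ_i) (log q) ^ (-c_i)` of `y_i` modulo `1` for all `i`, if `θ_1 + ... + θ_d = 1` and
  `c_1 + ... + c_d > 0`. (For `d = 1`, `0 < c ≤ 1` there are infinitely many such `q`, by Khinchin.)
-/

set_option autoImplicit false

namespace Pool.Agent.Results.MP_79499b_co.PowersAndDenominators

open Pool.Agent.X283.DA

/-- Some finite group `G` (not assumed abelian) of order `(n ^ m - 1) / (n - 1)` contains a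
difference set `D` with the Singer parameters:
`k = (n ^ (m - 1) - 1) / (n - 1)`, `lambda = (n ^ (m - 2) - 1) / (n - 1)`. -/
def HasSingerDifferenceSet (n m : ℕ) : Prop :=
  ∃ (G : Type) (_ : Group G) (_ : Fintype G) (_ : DecidableEq G) (D : Finset G),
    Fintype.card G * (n - 1) = n ^ m - 1 ∧ D.card * (n - 1) = n ^ (m - 1) - 1 ∧
    ∀ g : G, g ≠ 1 →
      ((D ×ˢ D).filter (fun p : G × G => p.1 * p.2⁻¹ = g)).card * (n - 1) = n ^ (m - 2) - 1

/-- `n ≤ 1`, or there is no difference set with the Singer parameters of `(n, m)`, for any odd `m ≥ 3`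
with least prime factor at most `K` -/
def NoOrder (K n : ℕ) : Prop :=
  2 ≤ n → ∀ m : ℕ, Odd m → 3 ≤ m → m.minFac ≤ K → ¬ HasSingerDifferenceSet n m

theorem sparse (K : ℕ) (b : ℝ) (hb : b < 1) : LogSparse {n : ℕ | ¬ NoOrder K n} b := by
  obtain ⟨C, hC0, hC⟩ := Pool.Agent.Y346.SG.singer_count_le K (1 - b) (by linarith)
  refine ⟨C, hC0.le, fun X hX => ?_⟩
  have h1 := hC X hX
  have e : (1 - b - 1 : ℝ) = -b := by ring
  rw [e] at h1
  refine le_trans ?_ h1
  refine Nat.cast_le.2 (Set.ncard_le_ncard ?_ ((Set.finite_Iic X).subset fun t ht => ht.2.1))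
  rintro n ⟨hn, hnX⟩
  have hn' : ¬ NoOrder K n := hn
  unfold NoOrder at hn'
  push Not at hn'
  obtain ⟨h2, m, h3, h4, h5, h6⟩ := hn'
  exact ⟨h2, hnX, m, h3, h4, h5, h6⟩

/-- **Theorem.** The properties `NoOrder K` of natural numbers, for all `K` at once, hold near the fast
sequences `t ^ κ_n` and `α exp(κ_n)` (in the sense of `FamFast`) and for the denominators of good
simultaneous (inhomogeneous) rational approximations (`FamDenominators`), with `β = 1`. -/
theorem result : FamFast NoOrder 1 ∧ FamDenominators NoOrder 1 :=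
  pack_fam NoOrder one_pos fun K b _ hb => sparse K b hb

end Pool.Agent.Results.MP_79499b_co.PowersAndDenominators
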